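import Mathlib
import Pool.Agent.Work.MP_1b4c08_al.Family

set_option autoImplicit false

namespace Pool.Agent.Results.MP_1b4c08_al.ExponentialDstab

open MvPolynomial

/-- The square-free monomial ideal generated by the monomials `∏_{i ∈ s} X_i`, `s ∈ S`. -/
noncomputable def sqfreeIdeal (K : Type) [Field K] (r : ℕ) (S : Set (Finset (Fin r))) :
    Ideal (MvPolynomial (Fin r) K) :=
  Ideal.span ((fun s : Finset (Fin r) => ∏ i ∈ s, (X i : MvPolynomial (Fin r) K)) '' S)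

/-- The `n`-th symbolic power of a radical ideal: the intersection of the `n`-th powers of its
minimal primes (for primes generated by variables these powers are primary). -/
noncomputable def symbPower (K : Type) [Field K] (r : ℕ) (I : Ideal (MvPolynomial (Fin r) K))
    (n : ℕ) : Ideal (MvPolynomial (Fin r) K) :=
  ⨅ P ∈ I.minimalPrimes, P ^ n

/-- The depth of `R / J` with respect to the irrelevant ideal: the supremum, in `ℕ∞`, of the
lengths of the regular sequences on `R / J` consisting of elements of `(X_1, ..., X_r)`. -/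
noncomputable def depthQuot (K : Type) [Field K] (r : ℕ) (J : Ideal (MvPolynomial (Fin r) K)) :
    ℕ∞ :=
  sSup {k : ℕ∞ | ∃ rs : List (MvPolynomial (Fin r) K), (rs.length : ℕ∞) = k ∧
    (∀ x ∈ rs, x ∈ Ideal.span (Set.range (X : Fin r → MvPolynomial (Fin r) K))) ∧
    RingTheory.Sequence.IsRegular (MvPolynomial (Fin r) K ⧸ J) rs}

/-- The depth stability index of the symbolic powers of `I`. -/
noncomputable def dstab (K : Type) [Field K] (r : ℕ) (I : Ideal (MvPolynomial (Fin r) K)) : ℕ :=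
  sInf {m : ℕ | 1 ≤ m ∧ ∀ n, m ≤ n →
    depthQuot K r (symbPower K r I n) = depthQuot K r (symbPower K r I m)}

lemma prod_X_eq (K : Type) [Field K] (r : ℕ) (s : Finset (Fin r)) :
    (∏ i ∈ s, (X i : MvPolynomial (Fin r) K)) = monomial (∑ i ∈ s, Finsupp.single i 1) (1 : K) := by
  rw [monomial_sum_one]
  rfl

/-- For every field `K` and every `r ≥ 5` there is a proper square-free monomial ideal `I` in
`K[X_1, ..., X_r]` for which the depth of `R / I^(n)` is at least `2` for `1 ≤ n ≤ F_{r-3}` and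
equal to `1` for all `n ≥ F_{r-2}` (`F` the Fibonacci numbers); so its depth stability index
lies in `(F_{r-3}, F_{r-2}]`. -/
theorem result (K : Type) [Field K] (r : ℕ) (hr : 5 ≤ r) :
    ∃ S : Set (Finset (Fin r)), sqfreeIdeal K r S ≠ ⊤ ∧
      (∀ n, 1 ≤ n → n ≤ Nat.fib (r - 3) →
        2 ≤ depthQuot K r (symbPower K r (sqfreeIdeal K r S) n)) ∧
      (∀ n, Nat.fib (r - 2) ≤ n →
        depthQuot K r (symbPower K r (sqfreeIdeal K r S) n) = 1) ∧
      Nat.fib (r - 3) < dstab K r (sqfreeIdeal K r S) ∧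
      dstab K r (sqfreeIdeal K r S) ≤ Nat.fib (r - 2) := by
  obtain ⟨M, rfl⟩ : ∃ M, r = M + 4 := ⟨r - 4, by omega⟩
  have hM : 1 ≤ M := by omega
  have e1 : M + 4 - 3 = M + 1 := by omega
  have e2 : M + 4 - 2 = M + 2 := by omega
  rw [e1, e2]
  have hI : sqfreeIdeal K (M + 4) (Pool.Agent.Work.MP_1b4c08_al.Sset
      (Pool.Agent.Work.MP_1b4c08_al.fam M)) = Ideal.span ((fun s : Finset (Fin (M + 4)) =>
      MvPolynomial.monomial (∑ i ∈ s, Finsupp.single i 1) (1 : K)) ''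
      (Pool.Agent.Work.MP_1b4c08_al.Sset (Pool.Agent.Work.MP_1b4c08_al.fam M))) := by
    unfold sqfreeIdeal
    congr 2
    funext s
    exact prod_X_eq K (M + 4) s
  have hsymb : ∀ n, symbPower K (M + 4) (sqfreeIdeal K (M + 4) (Pool.Agent.Work.MP_1b4c08_al.Sset
      (Pool.Agent.Work.MP_1b4c08_al.fam M))) n =
      Pool.Agent.Work.MP_1b4c08_al.J K (Pool.Agent.Work.MP_1b4c08_al.fam M) n := by
    intro n
    unfold symbPower
    rw [hI, Pool.Agent.Work.MP_1b4c08_al.symb_eq _ (Pool.Agent.Work.MP_1b4c08_al.fam_anti M)]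
  have hlow : ∀ n, 1 ≤ n → n ≤ Nat.fib (M + 1) →
      2 ≤ depthQuot K (M + 4) (symbPower K (M + 4) (sqfreeIdeal K (M + 4)
        (Pool.Agent.Work.MP_1b4c08_al.Sset (Pool.Agent.Work.MP_1b4c08_al.fam M))) n) := by
    intro n hn1 hn
    rw [hsymb]
    obtain ⟨rs, h1, h2, h3⟩ := Pool.Agent.Work.MP_1b4c08_al.two_mem_T (K := K)
      (Pool.Agent.Work.MP_1b4c08_al.fam M) n hn1
      ⟨_, Pool.Agent.Work.MP_1b4c08_al.mem_fam.2 (Or.inl rfl)⟩
      (Pool.Agent.Work.MP_1b4c08_al.C1 M) (Pool.Agent.Work.MP_1b4c08_al.C2 M)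
      (Pool.Agent.Work.MP_1b4c08_al.fam_card M hM)
      (Pool.Agent.Work.MP_1b4c08_al.fam_pair M hM) (Pool.Agent.Work.MP_1b4c08_al.fam_ne_univ M hM)
      (Pool.Agent.Work.MP_1b4c08_al.fam_inf M hM n hn)
    exact le_sSup ⟨rs, by rw [h1]; rfl, h2, h3⟩
  have hfib1 : 1 ≤ Nat.fib (M + 2) := Nat.fib_pos.2 (by omega)
  have hhigh : ∀ n, Nat.fib (M + 2) ≤ n →
      depthQuot K (M + 4) (symbPower K (M + 4) (sqfreeIdeal K (M + 4)
        (Pool.Agent.Work.MP_1b4c08_al.Sset (Pool.Agent.Work.MP_1b4c08_al.fam M))) n) = 1 := by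
    intro n hn
    rw [hsymb]
    apply le_antisymm
    · apply sSup_le
      rintro k ⟨rs, hlen, hmem, hreg⟩
      rw [← hlen]
      match rs, hmem, hreg with
      | [], _, _ => simp
      | [_], _, _ => simp
      | x :: y :: t, hmem, hreg =>
        exfalso
        rw [RingTheory.Sequence.isRegular_cons_iff,
          RingTheory.Sequence.isRegular_cons_iff] at hreg
        have hex : ∀ C ∈ Pool.Agent.Work.MP_1b4c08_al.fam M, ∃ i, i ∉ C := by
          intro C hC
          obtain ⟨k, _, hk⟩ := Pool.Agent.Work.MP_1b4c08_al.fam_card M hM C hC ⟨0, by omega⟩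
          exact ⟨k, hk⟩
        have hw0 := Pool.Agent.Work.MP_1b4c08_al.wt_W_av M n 0 hn (by omega)
        have hw1 := Pool.Agent.Work.MP_1b4c08_al.wt_W_av M n 1 hn (by omega)
        exact Pool.Agent.Work.MP_1b4c08_al.no_pair (Pool.Agent.Work.MP_1b4c08_al.fam M) n
          (Pool.Agent.Work.MP_1b4c08_al.C1 M) (Pool.Agent.Work.MP_1b4c08_al.C2 M)
          (Pool.Agent.Work.MP_1b4c08_al.mem_fam.2 (Or.inl rfl))
          (Pool.Agent.Work.MP_1b4c08_al.mem_fam.2 (Or.inr (Or.inl rfl)))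
          (Pool.Agent.Work.MP_1b4c08_al.C1_union_C2 M)
          (hex _ (Pool.Agent.Work.MP_1b4c08_al.mem_fam.2 (Or.inl rfl)))
          (hex _ (Pool.Agent.Work.MP_1b4c08_al.mem_fam.2 (Or.inr (Or.inl rfl))))
          (Pool.Agent.Work.MP_1b4c08_al.av M n)
          (by unfold Pool.Agent.Work.MP_1b4c08_al.C1; omega)
          (by rw [Pool.Agent.Work.MP_1b4c08_al.wt_C2_av]; omega)
          (Pool.Agent.Work.MP_1b4c08_al.not_E M n hn (by omega)) x y
          (hmem x (by simp)) (hmem y (by simp)) hreg.1 hreg.2.1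
    · obtain ⟨rs, h1, h2, h3⟩ := Pool.Agent.Work.MP_1b4c08_al.one_mem_T (K := K)
        (Pool.Agent.Work.MP_1b4c08_al.fam M) n (by omega)
        ⟨_, Pool.Agent.Work.MP_1b4c08_al.mem_fam.2 (Or.inl rfl)⟩
        (Pool.Agent.Work.MP_1b4c08_al.fam_ne_univ M hM)
      exact le_sSup ⟨rs, by rw [h1]; rfl, h2, h3⟩
  refine ⟨_, ?_, hlow, hhigh, ?_, ?_⟩
  · rw [hI, Pool.Agent.Work.MP_1b4c08_al.span_S_eq]
    intro htop
    have h1 : (⨅ C ∈ Pool.Agent.Work.MP_1b4c08_al.fam M,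
        Pool.Agent.Work.MP_1b4c08_al.PC K C) ≤
        Pool.Agent.Work.MP_1b4c08_al.PC K (Pool.Agent.Work.MP_1b4c08_al.C1 M) :=
      iInf₂_le _ (Pool.Agent.Work.MP_1b4c08_al.mem_fam.2 (Or.inl rfl))
    rw [htop] at h1
    exact (Pool.Agent.Work.MP_1b4c08_al.PC_isPrime _).ne_top (top_le_iff.1 h1)
  · have hne : {m : ℕ | 1 ≤ m ∧ ∀ n, m ≤ n →
        depthQuot K (M + 4) (symbPower K (M + 4) (sqfreeIdeal K (M + 4)
          (Pool.Agent.Work.MP_1b4c08_al.Sset (Pool.Agent.Work.MP_1b4c08_al.fam M))) n) =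
        depthQuot K (M + 4) (symbPower K (M + 4) (sqfreeIdeal K (M + 4)
          (Pool.Agent.Work.MP_1b4c08_al.Sset (Pool.Agent.Work.MP_1b4c08_al.fam M))) m)}.Nonempty :=
      ⟨Nat.fib (M + 2), hfib1, fun n hn => by rw [hhigh n hn, hhigh _ le_rfl]⟩
    have hmem := Nat.sInf_mem hne
    obtain ⟨h1, h2⟩ := hmem
    by_contra hcon
    push Not at hcon
    have h3 := hlow _ h1 hcon
    have h4 := h2 (max (sInf {m : ℕ | 1 ≤ m ∧ ∀ n, m ≤ n →
        depthQuot K (M + 4) (symbPower K (M + 4) (sqfreeIdeal K (M + 4)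
          (Pool.Agent.Work.MP_1b4c08_al.Sset (Pool.Agent.Work.MP_1b4c08_al.fam M))) n) =
        depthQuot K (M + 4) (symbPower K (M + 4) (sqfreeIdeal K (M + 4)
          (Pool.Agent.Work.MP_1b4c08_al.Sset (Pool.Agent.Work.MP_1b4c08_al.fam M))) m)})
      (Nat.fib (M + 2))) (le_max_left _ _)
    rw [hhigh _ (le_max_right _ _)] at h4
    rw [← h4] at h3
    exact absurd h3 (by norm_num)
  · exact Nat.sInf_le ⟨hfib1, fun n hn => by rw [hhigh n hn, hhigh _ le_rfl]⟩

end Pool.Agent.Results.MP_1b4c08_al.ExponentialDstab
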